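import Mathlib

open MvPolynomial

namespace Pool.Agent.Results.MP_72f8f6_ag.Cond

/-- The ideal `L` generated by the linear relations. -/
noncomputable def lin {R : Type} [CommRing R] {m : ℕ} (g : Fin m → R) : Ideal (MvPolynomial (Fin m) R) :=
  Ideal.span {F | ∃ c : Fin m → R, ∑ i, c i * g i = 0 ∧ F = ∑ i, C (c i) * X i}

/-- The conductor `L :_R J` of the ideal generated by `g`, with `J` the kernel of `y_j ↦ g_j t`. -/
def cond {R : Type} [CommRing R] {m : ℕ} (g : Fin m → R) : Set R :=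
  {r | ∀ F : MvPolynomial (Fin m) R,
    aeval (fun j => Polynomial.C (g j) * Polynomial.X) F = 0 → C r * F ∈ lin g}

section
variable {R : Type} [CommRing R] {a f u : R}

lemma step (hreg : ∀ j r, r * f ∈ Ideal.span {a} ^ j → r ∈ Ideal.span {a} ^ j)
    (K : Ideal (MvPolynomial (Fin 2) R)) (h1 : C a * X 1 - C f * X 0 ∈ K)
    (h2 : ∀ s c, c * a ^ s = 0 → C c * X 0 ^ s ∈ K) (k : ℕ) : ∀ (s : ℕ) (c : ℕ → R),
    ∑ i ∈ Finset.range (k + 1), c i * a ^ (s + i) * f ^ (k - i) = 0 →
    ∑ i ∈ Finset.range (k + 1), C (c i) * X 0 ^ (s + i) * X 1 ^ (k - i) ∈ K := by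
  induction k with
  | zero => intro s c h; simpa using h2 s (c 0) (by simpa using h)
  | succ k ih =>
    intro s c h
    rw [Finset.sum_range_succ'] at h ⊢
    simp only [Nat.add_sub_add_right, add_zero, Nat.sub_zero] at h ⊢
    have h3 : ∀ n r, r * f ^ n ∈ Ideal.span {a} ^ (s + 1) → r ∈ Ideal.span {a} ^ (s + 1) := by
      intro n
      induction n with
      | zero => simp
      | succ n ihn => intro r hr; exact ihn r (hreg _ _ (by rwa [mul_assoc, ← pow_succ]))
    have h4 := h3 (k + 1) (c 0 * a ^ s) (by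
      rw [eq_neg_of_add_eq_zero_right h, Ideal.span_singleton_pow]
      refine neg_mem (Ideal.sum_mem _ fun i _ => Ideal.mem_span_singleton.2
        ⟨c (i + 1) * a ^ i * f ^ (k - i), by ring⟩))
    rw [Ideal.span_singleton_pow, Ideal.mem_span_singleton] at h4
    obtain ⟨c', hc'⟩ := h4
    have h5 := ih (s + 1) (fun i => c (i + 1) + if i = 0 then c' * f else 0) (by
      simp only [add_mul, Finset.sum_add_distrib, ite_mul, zero_mul, Finset.sum_ite_eq',
        Finset.mem_range, Nat.zero_lt_succ, if_true, add_zero, Nat.sub_zero]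
      rw [← h, hc']
      congr 1
      · exact Finset.sum_congr rfl fun i _ => by ring
      · ring)
    simp only [map_add, add_mul, Finset.sum_add_distrib, apply_ite C, map_zero, ite_mul, zero_mul,
      Finset.sum_ite_eq', Finset.mem_range, Nat.zero_lt_succ, if_true, add_zero, Nat.sub_zero] at h5
    have h6 := h2 s (c 0 - a * c') (by rw [sub_mul, hc']; ring)
    convert K.add_mem (K.add_mem h5 (K.mul_mem_right (X 1 ^ (k + 1)) h6))
      (K.mul_mem_left (C c' * X 0 ^ s * X 1 ^ k) h1) using 1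
    have : ∑ i ∈ Finset.range (k + 1), C (c (i + 1)) * (X 0 : MvPolynomial (Fin 2) R) ^ (s + (i + 1)) *
        X 1 ^ (k - i) = ∑ i ∈ Finset.range (k + 1), C (c (i + 1)) * X 0 ^ (s + 1 + i) * X 1 ^ (k - i) :=
      Finset.sum_congr rfl fun i _ => by ring
    rw [this]
    simp only [map_sub, map_mul]
    ring

lemma hc (F : MvPolynomial (Fin 2) R) (t : ℕ) : homogeneousComponent t F =
    ∑ i ∈ Finset.range (t + 1), C (coeff (Finsupp.single 0 i + Finsupp.single 1 (t - i)) F) *
      X 0 ^ (0 + i) * X 1 ^ (t - i) := by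
  ext m
  have hm : m = Finsupp.single 0 (m 0) + Finsupp.single 1 (m 1) := by
    ext i; fin_cases i <;> simp
  simp only [zero_add, X_pow_eq_monomial, C_mul_monomial, monomial_mul, mul_one, coeff_sum,
    coeff_monomial, coeff_homogeneousComponent, Finsupp.degree_eq_sum, Fin.sum_univ_two]
  split_ifs with h
  · rw [Finset.sum_eq_single_of_mem (m 0) (by simp; omega)]
    · have : t - m 0 = m 1 := by omega
      rw [this, ← hm, if_pos rfl]
    · intro i _ hi
      rw [if_neg]
      intro h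
      exact hi (by simpa using DFunLike.congr_fun h 0)
  · refine (Finset.sum_eq_zero fun i hi => if_neg fun h' => h ?_).symm
    have e0 := DFunLike.congr_fun h' 0
    have e1 := DFunLike.congr_fun h' 1
    simp at e0 e1 hi
    omega

lemma mem_cond (hreg : ∀ j r, r * f ∈ Ideal.span {a} ^ j → r ∈ Ideal.span {a} ^ j)
    (h1 : ∀ c, c * a ^ 2 = 0 → ∃ c' e, c' * a ^ 2 = 0 ∧ e * a = 0 ∧ u * c = f * c' + e)
    (h2 : ∀ s c, c * a ^ (s + 2) = 0 → c * a ^ 2 = 0) : u ∈ cond ![a, f] := by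
  intro F hF
  have k1 : C a * X 1 - C f * X 0 ∈ lin ![a, f] := Ideal.subset_span ⟨![-f, a], by
    simp [Fin.sum_univ_two]; ring, by simp [Fin.sum_univ_two]; ring⟩
  have k2 : ∀ c, c * a = 0 → C c * X 0 ∈ lin ![a, f] := fun c h => Ideal.subset_span ⟨![c, 0], by
    simpa [Fin.sum_univ_two] using h, by simp [Fin.sum_univ_two]⟩
  let K : Ideal (MvPolynomial (Fin 2) R) := Submodule.comap (LinearMap.toSpanSingleton _ _ (C u)) (lin ![a, f])
  have hK : ∀ G, G ∈ K ↔ G * C u ∈ lin ![a, f] := fun G => Iff.rfl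
  rw [mul_comm, ← hK, ← sum_homogeneousComponent F]
  have hs : ∀ t, aeval (fun j => Polynomial.C (![a, f] j) * Polynomial.X) (homogeneousComponent t F) =
      Polynomial.monomial t (∑ i ∈ Finset.range (t + 1), coeff (Finsupp.single 0 i +
        Finsupp.single 1 (t - i)) F * a ^ (0 + i) * f ^ (t - i)) := fun t => by
    rw [hc, map_sum, map_sum]
    refine Finset.sum_congr rfl fun i hi => ?_
    have : t = i + (t - i) := by simp at hi; omega
    simp only [map_mul, map_pow, aeval_C, aeval_X, Matrix.cons_val_zero, Matrix.cons_val_one,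
      zero_add, ← Polynomial.C_mul_X_pow_eq_monomial, Polynomial.algebraMap_eq]
    conv_rhs => enter [2]; rw [this]
    ring
  refine K.sum_mem fun t ht => ?_
  rw [hc]
  refine step hreg K ((hK _).2 (Ideal.mul_mem_right _ _ k1)) (fun s c h => (hK _).2 ?_) t 0 _ ?_
  · match s, h with
    | 0, h => simp only [pow_zero, mul_one] at h; simp [h]
    | 1, h => rw [pow_one] at h ⊢; exact Ideal.mul_mem_right _ _ (k2 c h)
    | s + 2, h =>
      obtain ⟨c', e, e1, e2, e3⟩ := h1 c (h2 s c h)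
      have e4 := congrArg (C : R → MvPolynomial (Fin 2) R) e3
      simp only [map_mul, map_add] at e4
      have e5 := k2 (c' * a) (by rw [← e1]; ring)
      rw [map_mul] at e5
      convert Ideal.add_mem _ (Ideal.sub_mem _ (Ideal.mul_mem_left _ (X 0 ^ s * X 1) e5)
        (Ideal.mul_mem_left _ (C c' * X 0 ^ (s + 1)) k1))
        (Ideal.mul_mem_left _ (X 0 ^ (s + 1)) (k2 e e2)) using 1
      linear_combination X 0 ^ (s + 2) * e4
  · rw [← sum_homogeneousComponent F, map_sum] at hF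
    have := congrArg (Polynomial.coeff · t) hF
    simp only [hs, Polynomial.finsetSum_coeff, Polynomial.coeff_monomial, Finset.sum_ite_eq',
      if_pos ht, Polynomial.coeff_zero] at this
    exact this

lemma of_cond {r n : R} (hr : r ∈ cond ![a]) (hn : n * a ^ 2 = 0) : r * n * a = 0 := by
  have h := hr (C n * X 0 ^ 2) (by
    simp only [map_mul, map_pow, aeval_C, aeval_X, Matrix.cons_val_zero, Polynomial.algebraMap_eq]
    rw [mul_pow, ← map_pow, ← mul_assoc, ← map_mul, hn]; simp)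
  have h3 : lin ![a] ≤ Submodule.comap (LinearMap.toSpanSingleton _ _ (C a))
        (RingHom.ker ((eval fun _ => (1 : R)) : MvPolynomial (Fin 1) R →+* R)) :=
    Ideal.span_le.2 (by
      rintro _ ⟨c, hc, rfl⟩
      simpa [RingHom.mem_ker] using hc)
  simpa [RingHom.mem_ker] using h3 h
end

abbrev A := MvPolynomial (Fin 3) ℚ
abbrev M (i : Fin 3) := A ⧸ Ideal.span {(X 0 * X 0 : A), X 0 * X i}

lemma px : Prime (X 0 : A) := X_prime

lemma nd : ¬ (X 0 : A) ∣ X 2 - X 1 := fun ⟨c, h⟩ => by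
  simpa using congrArg (eval ![0, 0, 1]) h

lemma memM (i : Fin 3) (g : A) : X 0 * g ∈ Ideal.span {(X 0 * X 0 : A), X 0 * X i} ↔
    g ∈ Ideal.span {(X 0 : A), X i} := by
  rw [Ideal.mem_span_pair, Ideal.mem_span_pair]
  refine exists₂_congr fun p q => ⟨fun h => mul_left_cancel₀ px.ne_zero (by rw [← h]; ring),
    fun h => by rw [← h]; ring⟩

lemma sh (i j : Fin 3) (h0 : j ≠ 0) (h : j ≠ i) (g : A) (hg : X j * g ∈ Ideal.span {(X 0 : A), X i}) :
    g ∈ Ideal.span {(X 0 : A), X i} := by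
  have : Ideal.span {(X 0 : A), X i} = Ideal.span (X '' {0, i}) := by simp [Set.image_insert_eq]
  rw [this, mem_ideal_span_X_image] at hg ⊢
  intro m hm
  have := hg (Finsupp.single j 1 + m) (by rw [mem_support_iff, coeff_X_mul]; exact mem_support_iff.1 hm)
  simpa [h0, h, Finsupp.single_apply] using this

lemma regM (i : Fin 3) (hi : i = 1 ∨ i = 2) (m : M i) (h : (X 2 - X 1 : A) • m = 0) : m = 0 := by
  obtain ⟨g, rfl⟩ := Ideal.Quotient.mk_surjective m
  change Ideal.Quotient.mk _ ((X 2 - X 1) * g) = 0 at h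
  rw [Ideal.Quotient.eq_zero_iff_mem] at h ⊢
  obtain ⟨p, q, hpq⟩ := Ideal.mem_span_pair.1 h
  obtain ⟨g', rfl⟩ := (px.dvd_or_dvd (a := X 2 - X 1) (b := g)
    ⟨p * X 0 + q * X i, by rw [← hpq]; ring⟩).resolve_left nd
  rw [mul_left_comm, memM] at h
  rw [memM]
  have hx : (X i : A) * g' ∈ Ideal.span {(X 0 : A), X i} :=
    Ideal.mul_mem_right _ _ (Ideal.subset_span (by simp))
  rcases hi with rfl | rfl
  · exact sh 1 2 (by simp) (by simp) _ (by convert Ideal.add_mem _ h hx using 1; ring)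
  · exact sh 2 1 (by simp) (by simp) _ (by convert Ideal.sub_mem _ hx h using 1; ring)

lemma regM1 (i : Fin 3) (m m' : M i) (h : (X 2 - X 1 : A) • m = (X 0 : A) • m') :
    ∃ w : M i, m = (X 0 : A) • w := by
  obtain ⟨g, rfl⟩ := Ideal.Quotient.mk_surjective m
  obtain ⟨g', rfl⟩ := Ideal.Quotient.mk_surjective m'
  change Ideal.Quotient.mk _ ((X 2 - X 1) * g) = Ideal.Quotient.mk _ (X 0 * g') at h
  obtain ⟨p, q, hpq⟩ := Ideal.mem_span_pair.1 (Ideal.Quotient.eq.1 h)
  obtain ⟨w, rfl⟩ := (px.dvd_or_dvd (a := X 2 - X 1) (b := g)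
    ⟨p * X 0 + q * X i + g', by linear_combination -hpq⟩).resolve_left nd
  exact ⟨Ideal.Quotient.mk _ w, rfl⟩

lemma kill (i : Fin 3) (g : A) (hg : g ∈ Ideal.span {(X 0 : A), X i}) (m : M i) :
    (X 0 * g : A) • m = 0 := by
  obtain ⟨w, rfl⟩ := Ideal.Quotient.mk_surjective m
  change Ideal.Quotient.mk _ (X 0 * g * w) = 0
  rw [Ideal.Quotient.eq_zero_iff_mem, mul_assoc, memM]
  exact Ideal.mul_mem_right _ _ hg

abbrev R0 := TrivSqZeroExt A (M 1 × M 2)

open TrivSqZeroExt

lemma sq0 (s : ℕ) (m : M 1 × M 2) : (X 0 ^ (s + 2) : A) • m = 0 := by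
  have e : (X 0 ^ (s + 2) : A) = X 0 * (X 0 ^ s * X 0) := by ring
  rw [e]
  ext
  · exact kill 1 _ (Ideal.mul_mem_left _ _ (Ideal.subset_span (by simp))) _
  · exact kill 2 _ (Ideal.mul_mem_left _ _ (Ideal.subset_span (by simp))) _

lemma mulinl (r : R0) (x : A) : r * inl x = inl (r.fst * x) + inr (x • r.snd) := by
  ext <;> simp

theorem result : ∃ (R : Type) (_ : CommRing R), IsNoetherianRing R ∧ ∃ a f : R,
    (∀ (j : ℕ) (r : R), r * f ∈ Ideal.span {a} ^ j → r ∈ Ideal.span {a} ^ j) ∧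
    ∃ u ∈ cond ![a, f], ¬ ∃ c ∈ cond ![a], ∃ s, u = c + f * s := by
  have hreg : ∀ (j : ℕ) (r : R0), r * inl (X 2 - X 1) ∈ Ideal.span {(inl (X 0) : R0)} ^ j →
      r ∈ Ideal.span {(inl (X 0) : R0)} ^ j := by
    intro j r h
    rw [Ideal.span_singleton_pow, Ideal.mem_span_singleton', inl_pow] at h ⊢
    obtain ⟨w, hw⟩ := h
    rw [mulinl, mulinl] at hw
    have e1 : w.fst * X 0 ^ j = r.fst * (X 2 - X 1) := by simpa using congrArg fst hw
    have e2 : (X 0 ^ j : A) • w.snd = (X 2 - X 1 : A) • r.snd := by simpa using congrArg snd hw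
    obtain ⟨p, hp⟩ := px.pow_dvd_of_dvd_mul_left j nd (b := r.fst) ⟨w.fst, by linear_combination -e1⟩
    obtain ⟨m, hm⟩ : ∃ m : M 1 × M 2, r.snd = (X 0 ^ j : A) • m := by
      match j, e2 with
      | 0, _ => exact ⟨r.snd, by simp⟩
      | 1, e2 =>
        rw [pow_one] at e2 ⊢
        obtain ⟨w1, h1⟩ := regM1 1 r.snd.1 w.snd.1 (congrArg Prod.fst e2).symm
        obtain ⟨w2, h2⟩ := regM1 2 r.snd.2 w.snd.2 (congrArg Prod.snd e2).symm
        exact ⟨(w1, w2), Prod.ext h1 h2⟩
      | s + 2, e2 =>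
        rw [sq0] at e2
        refine ⟨0, ?_⟩
        rw [smul_zero]
        exact Prod.ext (regM 1 (by simp) _ (congrArg Prod.fst e2).symm)
          (regM 2 (by simp) _ (congrArg Prod.snd e2).symm)
    refine ⟨inl p + inr m, ?_⟩
    rw [mulinl]
    ext1
    · simp [hp, mul_comm]
    · simp [hm]
  have h0 : ∀ (s : ℕ) (c : R0), c * inl (X 0) ^ s = 0 → c.fst = 0 := fun s c h => by
    simpa using congrArg fst h
  have h00 : ∀ c : R0, c.fst = 0 → c * inl (X 0) ^ 2 = 0 := fun c h => by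
    rw [inl_pow, mulinl, h, sq0 0]; simp
  refine ⟨R0, inferInstance, ?_, inl (X 0), inl (X 2 - X 1), hreg, inl (X 1),
    mem_cond hreg (fun c h => ?_) fun s c h => h00 c (h0 _ c h), ?_⟩
  · have : Module.Finite A R0 := inferInstanceAs (Module.Finite A (A × (M 1 × M 2)))
    have : IsScalarTower A R0 R0 := IsScalarTower.right (R := A) (A := R0)
    exact IsNoetherianRing.of_finite A R0
  · refine ⟨inr (0, -c.snd.2), inr ((X 1 : A) • c.snd.1, (X 2 : A) • c.snd.2), h00 _ rfl, ?_, ?_⟩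
    · rw [mulinl]
      have k1 := kill 1 (X 1) (Ideal.subset_span (by simp)) c.snd.1
      have k2 := kill 2 (X 2) (Ideal.subset_span (by simp)) c.snd.2
      rw [mul_smul] at k1 k2
      ext1
      · simp
      · simp only [snd_add, snd_inl, snd_inr, zero_add, snd_zero]
        exact Prod.ext k1 k2
    · rw [mul_comm, mulinl, mul_comm (inl _), mulinl, h0 _ c h]
      ext1
      · simp
      · simp only [snd_add, snd_inl, snd_inr, zero_add]
        ext1
        · simp
        · simp [sub_smul]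
  · rintro ⟨c, hc, s, h⟩
    have k : ∀ m : M 1 × M 2, (X 0 * c.fst : A) • m = 0 := fun m => by
      have := congrArg snd (of_cond hc (h00 (inr m) rfl))
      rw [mulinl] at this
      simpa [mul_smul] using this
    have k1 : Ideal.Quotient.mk _ (X 0 * c.fst * 1) = 0 := congrArg Prod.fst (k (1, 1))
    have k2 : Ideal.Quotient.mk _ (X 0 * c.fst * 1) = 0 := congrArg Prod.snd (k (1, 1))
    rw [mul_one, Ideal.Quotient.eq_zero_iff_mem, memM, Ideal.mem_span_pair] at k1 k2
    obtain ⟨p, q, e1⟩ := k1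
    obtain ⟨p', q', e2⟩ := k2
    have e : (X 1 : A) = c.fst + (X 2 - X 1) * s.fst := by simpa using congrArg fst h
    have f1 := congrArg (fun g => constantCoeff (pderiv 2 g)) (e1 ▸ e)
    have f2 := congrArg (fun g => constantCoeff (pderiv 1 g)) (e2 ▸ e)
    simp at f1 f2
    simp [← f1] at f2

end Pool.Agent.Results.MP_72f8f6_ag.Cond
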